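import Mathlib
import Pool.Agent.H923R2.FP.Stubs

/-! FP task STAR: sum of the key identities.  Owner: helper202. -/

set_option autoImplicit false

namespace Pool.Agent.H923R2.FP.T_STAR

open Pool.Agent.H923R2.FP
open scoped ComplexConjugate ComplexOrder

theorem rh_zero (N : ℕ) (hN : 1 ≤ N) : rh N 0 = 1 := by
  unfold rh
  rw [if_pos (by omega)]
  simp

theorem kap_left (N m : ℕ) (hN : 1 ≤ N) : kap N m 0 = if m = 1 then -(Complex.I / 2) else 0 := by
  unfold kap
  by_cases h : m = 1
  · rw [if_pos (by omega), if_pos h, rh_zero N hN]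
    simp
  · rw [if_neg (by omega), if_neg (by omega), if_neg h]

theorem kap_right (N n : ℕ) (hN : 1 ≤ N) : kap N 0 n = if n = 1 then (Complex.I / 2) else 0 := by
  unfold kap
  by_cases h : n = 1
  · rw [if_neg (by omega), if_pos (by omega), if_pos h, rh_zero N hN]
    simp
  · rw [if_neg (by omega), if_neg (by omega), if_neg h]

theorem core (N : ℕ) (hN : 1 ≤ N) (e : ℂ) (T : ℕ → ℂ) :
    ∑ m ∈ Finset.range (N + 3), ∑ n ∈ Finset.range (N + 3), kap N m n *
      (e * ((if n = 0 then T m else 0) - (if m = 0 then T n else 0))) = -Complex.I * e * T 1 := by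
  have h1 : ∑ m ∈ Finset.range (N + 3), ∑ n ∈ Finset.range (N + 3),
      kap N m n * (e * (if n = 0 then T m else 0)) = -(Complex.I / 2) * e * T 1 := by
    rw [Finset.sum_eq_single 1]
    · rw [Finset.sum_eq_single 0]
      · rw [if_pos rfl, kap_left N 1 hN, if_pos rfl]
        ring
      · intro n _ hn
        rw [if_neg hn, mul_zero, mul_zero]
      · intro h
        exact absurd (Finset.mem_range.2 (by omega)) h
    · intro m _ hm
      refine Finset.sum_eq_zero fun n _ => ?_
      by_cases hn : n = 0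
      · rw [hn, kap_left N m hN, if_neg hm, zero_mul]
      · rw [if_neg hn, mul_zero, mul_zero]
    · intro h
      exact absurd (Finset.mem_range.2 (by omega)) h
  have h2 : ∑ m ∈ Finset.range (N + 3), ∑ n ∈ Finset.range (N + 3),
      kap N m n * (e * (if m = 0 then T n else 0)) = (Complex.I / 2) * e * T 1 := by
    rw [Finset.sum_eq_single 0]
    · rw [Finset.sum_eq_single 1]
      · rw [if_pos rfl, kap_right N 1 hN, if_pos rfl]
        ring
      · intro n _ hn
        rw [kap_right N n hN, if_neg hn, zero_mul]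
      · intro h
        exact absurd (Finset.mem_range.2 (by omega)) h
    · intro m _ hm
      refine Finset.sum_eq_zero fun n _ => ?_
      rw [if_neg hm, mul_zero, mul_zero]
    · intro h
      exact absurd (Finset.mem_range.2 (by omega)) h
  calc _ = ∑ m ∈ Finset.range (N + 3), ∑ n ∈ Finset.range (N + 3),
        kap N m n * (e * (if n = 0 then T m else 0)) -
      ∑ m ∈ Finset.range (N + 3), ∑ n ∈ Finset.range (N + 3),
        kap N m n * (e * (if m = 0 then T n else 0)) := by
        rw [← Finset.sum_sub_distrib]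
        refine Finset.sum_congr rfl fun m _ => ?_
        rw [← Finset.sum_sub_distrib]
        refine Finset.sum_congr rfl fun n _ => ?_
        ring
    _ = _ := by rw [h1, h2]; ring

theorem t_STAR (hKEY : S_KEY) : S_STAR := by
  intro A Q R _ _ _ _ _ _ _ τ π ρ s u a X p hτ hsys hgad v t N hN ht hsum w
  have h1 : ∀ g ∈ t.support, (t g : ℂ) * ∑ m ∈ Finset.range (N + 3),
      ∑ n ∈ Finset.range (N + 3), kap N m n *
        phi τ (vl π ρ s) (PU π ρ u a X v n * (GG π ρ u a g⁻¹ : A))
          ((GG π ρ u a g : A) * PU π ρ u a X v m) w =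
      (-Complex.I * τ (PU π ρ u a X v 1 * ev (vl π ρ s) w)) * ((t g * eps v g : ℝ) : ℂ) := by
    intro g hg
    have h2 : ∑ m ∈ Finset.range (N + 3), ∑ n ∈ Finset.range (N + 3), kap N m n *
        phi τ (vl π ρ s) (PU π ρ u a X v n * (GG π ρ u a g⁻¹ : A))
          ((GG π ρ u a g : A) * PU π ρ u a X v m) w =
        -Complex.I * (eps v g : ℂ) * τ (PU π ρ u a X v 1 * ev (vl π ρ s) w) := by
      rw [← core N hN (eps v g : ℂ) (fun m => τ (PU π ρ u a X v m * ev (vl π ρ s) w))]
      refine Finset.sum_congr rfl fun m _ => Finset.sum_congr rfl fun n _ => ?_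
      rw [hKEY A Q R τ π ρ s u a X p hτ hsys hgad v g (ht g hg) m n w]
    rw [h2]
    push_cast
    ring
  rw [Finset.sum_congr rfl h1, ← Finset.mul_sum, ← Complex.ofReal_sum, hsum, Complex.ofReal_one,
    mul_one, ← mul_assoc]
  have h3 : Complex.I * -Complex.I = 1 := by rw [mul_neg, Complex.I_mul_I, neg_neg]
  rw [h3, one_mul]

end Pool.Agent.H923R2.FP.T_STAR
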