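import Mathlib
import Pool.Agent.H923R2.FP.Stubs

/-! FP task T3: faithful tracial states in the usual sense.  Owner: helper202. -/

set_option autoImplicit false

namespace Pool.Agent.H923R2.FP.T_T3

open Pool.Agent.H923R2.FP
open scoped ComplexConjugate ComplexOrder

theorem le_norm {A : Type} [CStarAlgebra A] (x : A) :
    ∃ z : A, ((‖x‖ ^ 2 : ℝ) : ℂ) • (1 : A) - star x * x = star z * z := by
  letI := CStarAlgebra.spectralOrder A
  letI := CStarAlgebra.spectralOrderedRing A
  have h1 : star x * x ≤ algebraMap ℝ A (‖x‖ ^ 2) := CStarAlgebra.star_mul_le_algebraMap_norm_sq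
  have h2 : 0 ≤ algebraMap ℝ A (‖x‖ ^ 2) - star x * x := sub_nonneg.2 h1
  obtain ⟨z, hz⟩ := CStarAlgebra.nonneg_iff_eq_star_mul_self.1 h2
  refine ⟨z, ?_⟩
  rw [← hz, Algebra.algebraMap_eq_smul_one]
  congr 1

theorem t_T3 : S_T3 := by
  intro A _ τ h1 hc hn hf
  have him : ∀ x, (τ (star x * x)).im = 0 := fun x => (Complex.nonneg_iff.1 (hn x)).2.symm
  have hre : ∀ x, 0 ≤ (τ (star x * x)).re := fun x => (Complex.nonneg_iff.1 (hn x)).1
  have hstr : ∀ x, τ (star x) = conj (τ x) := by
    intro x
    have e1 : star (1 + x) * (1 + x) = 1 + x + star x + star x * x := by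
      rw [star_add, star_one]
      noncomm_ring
    have e2 : star (1 + Complex.I • x) * (1 + Complex.I • x) =
        1 + Complex.I • x - Complex.I • star x + star x * x := by
      rw [star_add, star_one, star_smul, Complex.star_def, Complex.conj_I, add_mul, mul_add, mul_one,
        one_mul, mul_add, mul_one, smul_mul_smul_comm, neg_mul, Complex.I_mul_I, neg_neg, one_smul,
        neg_smul]
      abel
    have h2 := him (1 + x)
    have h3 := him (1 + Complex.I • x)
    rw [e1, map_add, map_add, map_add, h1, Complex.add_im, Complex.add_im, Complex.add_im, him,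
      Complex.one_im] at h2
    rw [e2, map_add, map_sub, map_add, map_smul, map_smul, h1, Complex.add_im, Complex.sub_im,
      Complex.add_im, him, Complex.one_im, smul_eq_mul, smul_eq_mul, Complex.I_mul_im,
      Complex.I_mul_im] at h3
    apply Complex.ext
    · rw [Complex.conj_re]
      linarith
    · rw [Complex.conj_im]
      linarith
  refine ⟨h1, hc, hstr, hre, ?_, ?_⟩
  · intro x hx
    exact hf x (Complex.ext hx (him x))
  · intro x
    have h2 : (τ (star x * x)).re ≤ ‖x‖ ^ 2 := by
      obtain ⟨z, hz⟩ := le_norm x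
      have h3 := hre z
      rw [← hz, map_sub, map_smul, h1, smul_eq_mul, mul_one, Complex.sub_re,
        Complex.ofReal_re] at h3
      linarith
    have h3 : ‖τ x‖ ^ 2 ≤ (τ (star x * x)).re := by
      have h4 := hre (x - τ x • (1 : A))
      have e3 : star (x - τ x • (1 : A)) * (x - τ x • (1 : A)) =
          star x * x - τ x • star x - conj (τ x) • x + (conj (τ x) * τ x) • (1 : A) := by
        rw [star_sub, star_smul, star_one, Complex.star_def, sub_mul, mul_sub, mul_sub,
          smul_mul_smul_comm, mul_one, mul_smul_comm, mul_one, smul_mul_assoc, one_mul]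
        abel
      rw [e3, map_add, map_sub, map_sub, map_smul, map_smul, map_smul, h1, hstr, smul_eq_mul,
        smul_eq_mul, smul_eq_mul, mul_one, mul_comm (τ x) (conj (τ x))] at h4
      have h5 : (conj (τ x) * τ x) = ((‖τ x‖ ^ 2 : ℝ) : ℂ) := by
        rw [← Complex.normSq_eq_conj_mul_self, Complex.normSq_eq_norm_sq]
      rw [h5, sub_add_cancel, Complex.sub_re, Complex.ofReal_re] at h4
      linarith
    exact (pow_le_pow_iff_left₀ (norm_nonneg _) (norm_nonneg _) two_ne_zero).1 (h3.trans h2)

end Pool.Agent.H923R2.FP.T_T3
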